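import Pool.Agent.Helper6.MONO.Stmts

/-!
Effect of a block of even index in the chart.
-/

set_option autoImplicit false
noncomputable section
namespace Pool.Agent.Helper6.MONO

/-! ### algebra -/

/-- the value `F` -/
def blkeF (Gce ξ ι cc l : ℂ) : ℂ := Gce * ξ * cc / (l * (1 - ι))

lemma blke_GG (κ h l ι Gcd Gde Gce Gec : ℂ)
    (H3 : Gce * Gec = l ^ 2)
    (H0 : Gcd * Gde * Gec * (1 - ι) = h * κ * l * (1 + ι)) (hl : l ≠ 0) :
    Gcd * Gde * l * (1 - ι) = h * κ * (1 + ι) * Gce := by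
  apply mul_left_cancel₀ hl
  linear_combination Gce * H0 - Gcd * Gde * (1 - ι) * H3

lemma blke_P1 (κ h l cc ι Gcd Gde Gce ξ pe k2 : ℂ)
    (GG : Gcd * Gde * l * (1 - ι) = h * κ * (1 + ι) * Gce) (hl : l ≠ 0) (hcc : cc ≠ 0)
    (hι1 : 1 - ι ≠ 0) (hccd : cc = κ * h / 2 + l) (hk2 : k2 ≠ 0)
    (hpe : pe = (2 * (Gce * ξ) + Gde * (Gcd * ξ)) / k2) :
    k2 / 2 * pe = blkeF Gce ξ ι cc l * (1 + ι * ((κ * h / 2 - l) / cc)) := by
  unfold blkeF
  rw [hpe]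
  field_simp
  rw [hccd]
  linear_combination ξ * GG

lemma blke_P2 (κ h l cc ι s Gce ξ xe yy R Sb k2 : ℂ) (hl : l ≠ 0) (hcc : cc ≠ 0)
    (hι1 : 1 - ι ≠ 0) (hι2 : ι ^ 2 = -s) (hκ : κ ≠ 0) (hk2 : k2 = 4 - κ ^ 2)
    (hSb : Sb = k2 / κ ^ 2)
    (hx : xe = Gce * h ^ 2 * ξ * (1 + ι) * yy / (4 * cc * l)) :
    xe * ((κ * R / 2) ^ 2 - k2 / 4) =
      blkeF Gce ξ ι cc l * ((κ * h / (4 * cc)) ^ 2 * (R ^ 2 - Sb) * ((1 + s) * yy)) := by
  have hs : s = -ι ^ 2 := by rw [hι2]; ring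
  unfold blkeF
  rw [hx, hSb, hk2, hs]
  field_simp
  ring

lemma blke_P3 (κ h l cc ι Gcd Gde Gce ξ u f R σ : ℂ)
    (GG : Gcd * Gde * l * (1 - ι) = h * κ * (1 + ι) * Gce) (hl : l ≠ 0) (hcc : cc ≠ 0)
    (hι1 : 1 - ι ≠ 0) (hκ : κ ≠ 0) (hf : f = -Gcd * ξ * u) :
    -σ * (Gde / κ) * f * (κ * R / 2) =
      blkeF Gce ξ ι cc l * (2 * σ * (κ * h / (4 * cc)) * R * ((1 + ι) * u)) := by
  unfold blkeF
  rw [hf]
  field_simp
  linear_combination 4 * σ * ξ * u * R * GG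

lemma blke_P4 (κ h l cc ι s Gce ξ xe yy R Sb k2 : ℂ) (hl : l ≠ 0) (hcc : cc ≠ 0)
    (hι1 : 1 - ι ≠ 0) (hι2 : ι ^ 2 = -s) (hκ : κ ≠ 0) (hk2 : k2 = 4 - κ ^ 2)
    (hSb : Sb = k2 / κ ^ 2)
    (hx : xe = Gce * h ^ 2 * ξ * (1 + ι) * yy / (4 * cc * l)) :
    4 * κ * (k2 / 4) * (κ * R / 2) * xe =
      κ ^ 2 * blkeF Gce ξ ι cc l *
        (2 * Sb * R * (κ * h / (4 * cc)) ^ 2 * ((1 + s) * yy)) := by
  have hs : s = -ι ^ 2 := by rw [hι2]; ring
  unfold blkeF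
  rw [hx, hSb, hk2, hs]
  field_simp
  ring

lemma blke_P5 (κ h l cc ι Gcd Gde Gce ξ u f R σ k2 Sb : ℂ)
    (GG : Gcd * Gde * l * (1 - ι) = h * κ * (1 + ι) * Gce) (hl : l ≠ 0) (hcc : cc ≠ 0)
    (hι1 : 1 - ι ≠ 0) (hκ : κ ≠ 0) (hf : f = -Gcd * ξ * u) (hk2 : k2 = 4 - κ ^ 2)
    (hSb : Sb = k2 / κ ^ 2) :
    -σ * Gde * f * ((κ * R / 2) ^ 2 - k2 / 4) =
      κ ^ 2 * blkeF Gce ξ ι cc l *
        (σ * (κ * h / (4 * cc)) * (R ^ 2 - Sb) * ((1 + ι) * u)) := by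
  unfold blkeF
  rw [hf, hSb, hk2]
  field_simp
  linear_combination 4 * σ * ξ * u * (κ ^ 2 * R ^ 2 + κ ^ 2 - 4) * GG

lemma blke_main (κ h l cc ι s Gcd Gde Ged Gce ξ xe yy u f R σ k2 Sb W Cm Sm Cm1 Sm1 A B pe pd
    ye yd : ℂ)
    (GG : Gcd * Gde * l * (1 - ι) = h * κ * (1 + ι) * Gce) (H2 : Gde * Ged = κ ^ 2)
    (hl : l ≠ 0) (hcc : cc ≠ 0) (hι1 : 1 - ι ≠ 0) (hι2 : ι ^ 2 = -s) (hκ : κ ≠ 0)
    (hccd : cc = κ * h / 2 + l) (hk2 : k2 = 4 - κ ^ 2) (hk0 : k2 ≠ 0) (hSb : Sb = k2 / κ ^ 2)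
    (hx : xe = Gce * h ^ 2 * ξ * (1 + ι) * yy / (4 * cc * l)) (hf : f = -Gcd * ξ * u)
    (hA : A = Gcd * ξ) (hB : B = Gce * ξ)
    (hpe : pe = (2 * B + Gde * A) / k2) (hpd : pd = (2 * A + Ged * B) / k2)
    (hWC : W * Cm = (κ * R / 2) ^ 2 - k2 / 4) (hWS : W * Sm = κ * R)
    (hW : W = (κ * R / 2) ^ 2 + k2 / 4)
    (hC1 : Cm1 = κ / 2 * Cm + k2 / 4 * Sm) (hS1 : Sm1 = κ / 2 * Sm - Cm)
    (hye : ye = pe + (xe - pe) * Cm - σ * (Gde / κ) * f * Sm / 2)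
    (hyd : yd = pd + (Ged / κ) * (xe - pe) * Cm1 - σ * f * Sm1 / 2) :
    W * ye = blkeF Gce ξ ι cc l * (1 + ι * ((κ * h / 2 - l) / cc) +
      (2 * σ * (κ * h / (4 * cc)) * R * ((1 + ι) * u) +
        (R ^ 2 - Sb) * (κ * h / (4 * cc)) ^ 2 * ((1 + s) * yy))) ∧
    W * (-(2 * yd - Ged * ye - A) * Gde) = κ ^ 2 * blkeF Gce ξ ι cc l *
      (R * (1 + ι * ((κ * h / 2 - l) / cc)) +
        σ * (κ * h / (4 * cc)) * (R ^ 2 - Sb) * ((1 + ι) * u) -
        2 * Sb * R * (κ * h / (4 * cc)) ^ 2 * ((1 + s) * yy)) := by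
  have P1 := blke_P1 κ h l cc ι Gcd Gde Gce ξ pe k2 GG hl hcc hι1 hccd hk0
    (by rw [hpe, hA, hB])
  have P2 := blke_P2 κ h l cc ι s Gce ξ xe yy R Sb k2 hl hcc hι1 hι2 hκ hk2 hSb hx
  have P3 := blke_P3 κ h l cc ι Gcd Gde Gce ξ u f R σ GG hl hcc hι1 hκ hf
  have P4 := blke_P4 κ h l cc ι s Gce ξ xe yy R Sb k2 hl hcc hι1 hι2 hκ hk2 hSb hx
  have P5 := blke_P5 κ h l cc ι Gcd Gde Gce ξ u f R σ k2 Sb GG hl hcc hι1 hκ hf hk2 hSb
  constructor
  · rw [hye]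
    linear_combination (xe - pe) * hWC - σ * (Gde / κ) * f / 2 * hWS + pe * hW + P1 + P2 + P3
  · have hAp : A = 2 * pd - Ged * pe := by
      rw [hpd, hpe]
      field_simp
      rw [hk2]
      linear_combination A * H2
    have e1 : (2 * yd - Ged * ye - A) * κ = (xe - pe) * Ged * (k2 / 2 * Sm) + κ * σ * f * Cm := by
      rw [hAp, hyd, hye, hC1, hS1]
      field_simp
      linear_combination 4 * σ * f * Sm * H2
    have e2 : -(2 * yd - Ged * ye - A) * Gde =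
        -((xe - pe) * κ * (k2 / 2 * Sm)) - σ * Gde * f * Cm := by
      apply mul_left_cancel₀ hκ
      linear_combination (-Gde) * e1 - (xe - pe) * (k2 / 2 * Sm) * H2
    rw [e2]
    linear_combination (-(xe - pe) * κ * (k2 / 2)) * hWS - σ * Gde * f * hWC + κ ^ 2 * R * P1 -
      P4 + P5

/-! ### trigonometry -/

lemma blke_trig (M m : ℕ) (hM : 3 ≤ M) (hm : 2 ≤ m) (hmM : m ≤ M + 1) :
    0 < Real.sin (Real.pi / M) ∧ 0 < Kp M ∧
    0 < (Kp M * Rb M m / 2) ^ 2 + (4 - Kp M ^ 2) / 4 ∧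
    ((Kp M * Rb M m / 2) ^ 2 + (4 - Kp M ^ 2) / 4) * Real.cos (m * (Real.pi / M)) =
      (Kp M * Rb M m / 2) ^ 2 - (4 - Kp M ^ 2) / 4 ∧
    ((Kp M * Rb M m / 2) ^ 2 + (4 - Kp M ^ 2) / 4) *
      (Real.sin (m * (Real.pi / M)) / Real.sin (Real.pi / M)) = Kp M * Rb M m ∧
    Real.cos ((m - 1 : ℕ) * (Real.pi / M)) = Kp M / 2 * Real.cos (m * (Real.pi / M)) +
      (4 - Kp M ^ 2) / 4 * (Real.sin (m * (Real.pi / M)) / Real.sin (Real.pi / M)) ∧
    Real.sin ((m - 1 : ℕ) * (Real.pi / M)) / Real.sin (Real.pi / M) =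
      Kp M / 2 * (Real.sin (m * (Real.pi / M)) / Real.sin (Real.pi / M)) -
      Real.cos (m * (Real.pi / M)) := by
  have hMR : (3 : ℝ) ≤ M := by exact_mod_cast hM
  have hmR : (m : ℝ) ≤ M + 1 := by exact_mod_cast hmM
  have hm0 : (2 : ℝ) ≤ m := by exact_mod_cast hm
  have hpi := Real.pi_pos
  have hφ0 : 0 < Real.pi / M := by positivity
  have hφ1 : Real.pi / M ≤ Real.pi / 3 := by
    apply div_le_div_of_nonneg_left hpi.le (by norm_num) hMR
  have hS : 0 < Real.sin (Real.pi / M) := Real.sin_pos_of_pos_of_lt_pi hφ0 (by linarith)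
  have hC : 0 < Real.cos (Real.pi / M) :=
    Real.cos_pos_of_mem_Ioo ⟨by linarith, by linarith⟩
  have ht : 0 < Real.sin (m * (Real.pi / M) / 2) := by
    apply Real.sin_pos_of_pos_of_lt_pi (by positivity)
    have h1 : (m : ℝ) * (Real.pi / M) ≤ (M + 1) * (Real.pi / M) :=
      mul_le_mul_of_nonneg_right hmR hφ0.le
    have h2 : ((M : ℝ) + 1) * (Real.pi / M) = Real.pi + Real.pi / M := by
      field_simp
    linarith
  set S := Real.sin (Real.pi / M) with hSdef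
  set C := Real.cos (Real.pi / M) with hCdef
  set t := Real.sin (m * (Real.pi / M) / 2) with htdef
  set c := Real.cos (m * (Real.pi / M) / 2) with hcdef
  have hK : Kp M = 2 * C := rfl
  have hR : Rb M m = S / C * (c / t) := by
    unfold Rb
    rw [Real.tan_eq_sin_div_cos]
  have hSC : S ^ 2 + C ^ 2 = 1 := Real.sin_sq_add_cos_sq _
  have htc : t ^ 2 + c ^ 2 = 1 := Real.sin_sq_add_cos_sq _
  have hR0 : Kp M * Rb M m / 2 = S * c / t := by
    rw [hK, hR]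
    field_simp
  have hS0 : (4 - Kp M ^ 2) / 4 = S ^ 2 := by
    rw [hK]
    linarith
  have hcos : Real.cos (m * (Real.pi / M)) = c ^ 2 - t ^ 2 := by
    have : (m : ℝ) * (Real.pi / M) = 2 * (m * (Real.pi / M) / 2) := by ring
    rw [this, Real.cos_two_mul, ← hcdef]
    linarith
  have hsin : Real.sin (m * (Real.pi / M)) = 2 * t * c := by
    have : (m : ℝ) * (Real.pi / M) = 2 * (m * (Real.pi / M) / 2) := by ring
    rw [this, Real.sin_two_mul]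
  have hW : (S * c / t) ^ 2 + S ^ 2 = S ^ 2 / t ^ 2 := by
    field_simp
    linarith
  have hm1 : ((m - 1 : ℕ) : ℝ) * (Real.pi / M) = m * (Real.pi / M) - Real.pi / M := by
    rw [Nat.cast_sub (by omega)]
    push_cast
    ring
  rw [hR0, hS0]
  refine ⟨hS, by rw [hK]; positivity, ?_, ?_, ?_, ?_, ?_⟩
  · rw [hW]
    positivity
  · rw [hW, hcos]
    field_simp
  · rw [hW, hsin]
    have : Kp M * Rb M m = 2 * (S * c / t) := by rw [← hR0]; ring
    rw [this]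
    field_simp
  · rw [hm1, Real.cos_sub, ← hSdef, ← hCdef, hK]
    field_simp
  · rw [hm1, Real.sin_sub, ← hSdef, ← hCdef, hK]
    field_simp

/-! ### the star -/

lemma blke_mm (p q r : ℕ) (i j : Fin 3) : mm p q r i j = mm p q r j i := by
  fin_cases i <;> fin_cases j <;> rfl

lemma blke_kk (p q r : ℕ) (i j : Fin 3) : kk p q r i j = kk p q r j i := by
  unfold kk
  rw [blke_mm]

lemma blke_mm3 (p q r : ℕ) (hp : 3 ≤ p) (hq : 3 ≤ q) (hr : 3 ≤ r) (i j : Fin 3) (h : i ≠ j) :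
    3 ≤ mm p q r i j := by
  fin_cases i <;> fin_cases j <;> first | exact absurd rfl h | assumption

lemma blke_Kp (M : ℕ) (hM : 3 ≤ M) : 0 < Kp M ∧ Kp M < 2 := by
  have h := blke_trig M 2 hM le_rfl (by omega)
  refine ⟨h.2.1, ?_⟩
  have h1 := Real.sin_sq_add_cos_sq (Real.pi / M)
  have h2 := h.1
  have h3 : Kp M = 2 * Real.cos (Real.pi / M) := rfl
  have h4 := h.2.1
  nlinarith

lemma blke_nrm (p q r : ℕ) (τ : ℝ) (G : Fin 3 → Fin 3 → ℂ) (hG : IsG p q r τ G) (i j : Fin 3)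
    (h : i ≠ j) : G i j * G j i = ((kk p q r i j : ℝ) : ℂ) ^ 2 := by
  rw [hG.herm i j]
  have h1 : G i j * star (G i j) = ((Complex.normSq (G i j) : ℝ) : ℂ) := Complex.mul_conj _
  rw [h1, Complex.normSq_eq_norm_sq, hG.nrm i j h]
  push_cast
  ring

lemma blke_I (τ : ℝ) : (1 : ℂ) - τ * Complex.I ≠ 0 := by
  intro h
  have := congrArg Complex.re h
  simp at this

lemma blke_I' (τ : ℝ) : (1 : ℂ) + τ * Complex.I ≠ 0 := by
  intro h
  have := congrArg Complex.re h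
  simp at this

lemma blke_tri (p q r : ℕ) (τ : ℝ) (G : Fin 3 → Fin 3 → ℂ) (hG : IsG p q r τ G) (c d e : Fin 3)
    (hD : Dist c d e) :
    G c d * G d e * G e c * (1 - iot τ c d) =
      (kk p q r c d : ℂ) * (kk p q r d e : ℂ) * (kk p q r c e : ℂ) * (1 + iot τ c d) ∧
    iot τ e d = -iot τ c d := by
  have h0 := blke_I τ
  have h0' := blke_I' τ
  have h1 : G 0 1 * G 1 2 * G 2 0 * (1 - τ * Complex.I) =
      (kk p q r 0 1 : ℂ) * (kk p q r 1 2 : ℂ) * (kk p q r 2 0 : ℂ) * (1 + τ * Complex.I) := by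
    rw [hG.tri]
    push_cast
    field_simp
  have h2 : G 1 0 * G 2 1 * G 0 2 * (1 + τ * Complex.I) =
      (kk p q r 0 1 : ℂ) * (kk p q r 1 2 : ℂ) * (kk p q r 2 0 : ℂ) * (1 - τ * Complex.I) := by
    have h3 := congrArg (starRingEnd ℂ) h1
    simp only [map_mul, map_sub, map_add, map_one, Complex.conj_ofReal, Complex.conj_I] at h3
    have h4 : ∀ i j, (starRingEnd ℂ) (G i j) = G j i := fun i j => (hG.herm i j).symm
    rw [h4, h4, h4] at h3
    linear_combination h3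
  have k10 : kk p q r 1 0 = kk p q r 0 1 := blke_kk p q r 1 0
  have k21 : kk p q r 2 1 = kk p q r 1 2 := blke_kk p q r 2 1
  have k02 : kk p q r 0 2 = kk p q r 2 0 := blke_kk p q r 0 2
  obtain ⟨hcd, hde, hec⟩ := hD
  fin_cases c <;> fin_cases d <;> first
    | exact absurd rfl hcd
    | (fin_cases e <;> first
        | exact absurd rfl hde
        | exact absurd rfl hec
        | (simp only [iot, sgs]
           simp [k10, k21, k02]
           first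
             | linear_combination h1
             | linear_combination h2))

/-! ### real components -/

lemma blke_par (k h l : ℝ) (hk : 0 < k) (hh : 0 < h) (hl : 0 < l) :
    gP k h l = k * h / (4 * cP k h l) ∧ b0P k h l = (k * h / 2 - l) / cP k h l ∧
      SbP k = (4 - k ^ 2) / k ^ 2 := by
  have hc : 0 < cP k h l := by unfold cP; positivity
  have h1 : gP k h l = k * h / (4 * cP k h l) := by
    unfold gP cP
    field_simp
    ring
  refine ⟨h1, ?_, ?_⟩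
  · unfold b0P
    rw [h1]
    unfold cP
    unfold cP at hc
    field_simp
    ring
  · unfold SbP
    field_simp
    ring

/-- the sign -/
def blkeσ (ε : Bool) : ℂ := if ε then 1 else -1

lemma blke_D (ε : Bool) (s k h l R : ℝ) (z : RV) (ι : ℂ) (hι : ι ^ 2 = -(s : ℂ)) :
    ((vDr s ε true z k h l R : ℝ) : ℂ) + blkeσ ε * ι * ((vDi s ε true z k h l R : ℝ) : ℂ) =
      1 + ι * ((b0P k h l : ℝ) : ℂ) +
      (2 * blkeσ ε * ((gP k h l : ℝ) : ℂ) * R * ((1 + ι) * (z.a + ι * z.b)) +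
        ((R : ℂ) ^ 2 - ((SbP k : ℝ) : ℂ)) * ((gP k h l : ℝ) : ℂ) ^ 2 *
          ((1 + s) * (z.yr + ι * z.be))) := by
  cases ε
  · simp only [vDr, vDi, vXr, vXi, vYr, vYi, rsg_false, CrP, CiP, blkeσ, if_true]
    push_cast
    linear_combination 2 * (R : ℂ) * ((gP k h l : ℝ) : ℂ) * (z.b : ℂ) * hι
  · simp only [vDr, vDi, vXr, vXi, vYr, vYi, rsg_true, CrP, CiP, blkeσ, if_true]
    push_cast
    linear_combination -(2 * (R : ℂ) * ((gP k h l : ℝ) : ℂ) * (z.b : ℂ)) * hι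

lemma blke_N (ε : Bool) (s k h l R : ℝ) (z : RV) (ι : ℂ) (hι : ι ^ 2 = -(s : ℂ)) :
    ((vNr s ε z k h l R : ℝ) : ℂ) + blkeσ ε * ι * ((vNi s ε z k h l R : ℝ) : ℂ) =
      R * (1 + ι * ((b0P k h l : ℝ) : ℂ)) +
        blkeσ ε * ((gP k h l : ℝ) : ℂ) * ((R : ℂ) ^ 2 - ((SbP k : ℝ) : ℂ)) *
          ((1 + ι) * (z.a + ι * z.b)) -
        2 * ((SbP k : ℝ) : ℂ) * R * ((gP k h l : ℝ) : ℂ) ^ 2 *
          ((1 + s) * (z.yr + ι * z.be)) := by
  cases ε
  · simp only [vNr, vNi, vXr, vXi, vYr, vYi, rsg_false, blkeσ]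
    push_cast
    linear_combination ((gP k h l : ℝ) : ℂ) * ((R : ℂ) ^ 2 - ((SbP k : ℝ) : ℂ)) * (z.b : ℂ) * hι
  · simp only [vNr, vNi, vXr, vXi, vYr, vYi, rsg_true, blkeσ, if_true]
    push_cast
    linear_combination -(((gP k h l : ℝ) : ℂ) * ((R : ℂ) ^ 2 - ((SbP k : ℝ) : ℂ)) * (z.b : ℂ)) * hι

lemma blke_quot (Dr Di Nr Ni s n j : ℂ) (hj : j ^ 2 = -s) (hn : n = Dr * Dr + s * (Di * Di))
    (hn0 : n ≠ 0) :
    (Dr + j * Di) * ((Nr * Dr + s * (Ni * Di)) / n + j * ((Ni * Dr - Nr * Di) / n)) =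
      Nr + j * Ni ∧ (Dr + j * Di) * ((Dr - j * Di) / n) = 1 := by
  constructor
  · field_simp
    rw [hn]
    linear_combination Di * (Ni * Dr - Nr * Di) * hj
  · field_simp
    rw [hn]
    linear_combination (-Di ^ 2) * hj

lemma blke_b (ε : Bool) (x : ℝ) : ((rsg (!(cjP ε true)) x : ℝ) : ℂ) = -blkeσ ε * (x : ℂ) := by
  cases ε
  · show ((x : ℝ) : ℂ) = -(if false = true then (1 : ℂ) else -1) * (x : ℂ)
    simp
  · show ((-x : ℝ) : ℂ) = -(if true = true then (1 : ℂ) else -1) * (x : ℂ)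
    simp

lemma blke_σσ (ε : Bool) : blkeσ ε * blkeσ ε = 1 := by
  cases ε <;> simp [blkeσ]

lemma blke_normD (ε : Bool) (t s Dr Di : ℝ) (ht : t ^ 2 = s) :
    ‖(Dr : ℂ) + blkeσ ε * ((t : ℂ) * Complex.I) * (Di : ℂ)‖ ^ 2 = Dr * Dr + s * (Di * Di) := by
  rw [Complex.sq_norm]
  cases ε
  · have : (Dr : ℂ) + blkeσ false * ((t : ℂ) * Complex.I) * (Di : ℂ) =
        ((Dr : ℝ) : ℂ) + ((-(t * Di) : ℝ) : ℂ) * Complex.I := by
      simp only [blkeσ, Bool.false_eq_true, if_false]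
      push_cast
      ring
    rw [this, Complex.normSq_add_mul_I, ← ht]
    ring
  · have : (Dr : ℂ) + blkeσ true * ((t : ℂ) * Complex.I) * (Di : ℂ) =
        ((Dr : ℝ) : ℂ) + (((t * Di) : ℝ) : ℂ) * Complex.I := by
      simp only [blkeσ, if_true]
      push_cast
      ring
    rw [this, Complex.normSq_add_mul_I, ← ht]
    ring

theorem st_BLKE : ST_BLKE := by
  intro hALT p q r hp hq hr τ G hG c d e hD ε m hm hmM hev x ξ z hξ hCh hst
  obtain ⟨hcd, hde, hec⟩ := hD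
  have hm0 : m % 2 = 0 := by
    unfold ev2 at hev
    exact of_decide_eq_true hev
  -- the parameters
  set M := mm p q r d e with hM
  have hM3 : 3 ≤ M := blke_mm3 p q r hp hq hr d e hde
  obtain ⟨hS, hK, hW, hWC, hWS, hC1, hS1⟩ := blke_trig M m hM3 hm hmM
  have hκ : kk p q r d e = Kp M := rfl
  have hK2 : Kp M < 2 := (blke_Kp M hM3).2
  set κ := kk p q r d e with hκd
  set h := kk p q r c d with hh
  set l := kk p q r c e with hl
  have hh0 : 0 < h := (blke_Kp _ (blke_mm3 p q r hp hq hr c d hcd)).1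
  have hl0 : 0 < l := (blke_Kp _ (blke_mm3 p q r hp hq hr c e hec.symm)).1
  rw [← hκ] at hK hK2 hW hWC hWS hC1 hS1
  set R := Rb M m with hR
  set s : ℝ := τ ^ 2 with hs
  have hcc0 : 0 < cP κ h l := by unfold cP; positivity
  obtain ⟨hgP, hbP, hSbP⟩ := blke_par κ h l hK hh0 hl0
  set ι := iot τ c d with hι
  set t : ℝ := sgs c d * τ with ht
  have hιt : ι = (t : ℂ) * Complex.I := rfl
  have hts : t ^ 2 = s := by
    have : sgs c d ^ 2 = 1 := by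
      unfold sgs
      split_ifs <;> norm_num
    rw [ht, mul_pow, this, one_mul]
  have hι2 : ι ^ 2 = -(s : ℂ) := by
    rw [hιt, mul_pow, Complex.I_sq, ← hts]
    push_cast
    ring
  have hι1 : 1 - ι ≠ 0 := blke_I t
  have hs0 : 0 ≤ s := sq_nonneg τ
  obtain ⟨htri, hιe⟩ := blke_tri p q r τ G hG c d e ⟨hcd, hde, hec⟩
  rw [← hh, ← hκd, ← hl, ← hι] at htri
  rw [← hι] at hιe
  have H1 := blke_nrm p q r τ G hG c d hcd
  have H2 := blke_nrm p q r τ G hG d e hde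
  have H3 := blke_nrm p q r τ G hG c e hec.symm
  rw [← hh] at H1
  rw [← hκd] at H2
  rw [← hl] at H3
  have hκC : (κ : ℂ) ≠ 0 := by exact_mod_cast hK.ne'
  have hhC : (h : ℂ) ≠ 0 := by exact_mod_cast hh0.ne'
  have hlC : (l : ℂ) ≠ 0 := by exact_mod_cast hl0.ne'
  have hccC : ((cP κ h l : ℝ) : ℂ) ≠ 0 := by exact_mod_cast hcc0.ne'
  have GG := blke_GG (κ : ℂ) h l ι (G c d) (G d e) (G c e) (G e c) H3 htri hlC
  -- the chart of `x`
  obtain ⟨hpiv, hu, hy⟩ := hCh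
  set u : ℂ := (z.a : ℂ) + ι * z.b with hu'
  set yy : ℂ := (z.yr : ℂ) + ι * z.be with hyy
  set f : ℂ := 2 * x d - G e d * x e - G c d * ξ with hf
  have hfu : f = -G c d * ξ * u := by
    have h1 : -f * G d c = (h : ℂ) ^ 2 * ξ * u := by
      rw [hf]
      have := hu
      push_cast at this
      exact this
    apply mul_left_cancel₀ (pow_ne_zero 2 hhC)
    linear_combination (-G c d) * h1 - f * H1
  have hxe : x e = G c e * (h : ℂ) ^ 2 * ξ * (1 + ι) * yy / (4 * ((cP κ h l : ℝ) : ℂ) * l) := by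
    have h1 : 4 * ((cP κ h l : ℝ) : ℂ) * G e c * x e = l * (h : ℂ) ^ 2 * ξ * (1 + ι) * yy := by
      have := hy
      push_cast at this
      exact this
    rw [eq_div_iff (mul_ne_zero (mul_ne_zero (by norm_num) hccC) hlC)]
    apply mul_left_cancel₀ hlC
    linear_combination G c e * h1 - 4 * ((cP κ h l : ℝ) : ℂ) * x e * H3
  -- the vector after the block
  obtain ⟨hyc, hE, _⟩ := hALT G (Real.pi / M) κ c d e x ⟨hcd, hde, hec⟩
    (fun i j => hG.herm i j) (by rw [hκ]; rfl) hS.ne' hK.ne' (hG.nrm d e hde) ε m (by omega)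
  obtain ⟨hye, hyd⟩ := hE hm0
  set y := gact G (blk d e ε m) x with hyy'
  have hpiv' : x c = ξ := hpiv
  simp only [hpiv'] at hyc hye hyd
  set W : ℝ := (κ * R / 2) ^ 2 + (4 - κ ^ 2) / 4 with hWd
  have hk0 : ((4 - κ ^ 2 : ℝ) : ℂ) ≠ 0 := by
    have : 0 < 4 - κ ^ 2 := by nlinarith
    exact_mod_cast this.ne'
  obtain ⟨e1, e2⟩ := blke_main (κ : ℂ) h l ((cP κ h l : ℝ) : ℂ) ι s (G c d) (G d e) (G e d)
    (G c e) ξ (x e) yy u f R (blkeσ ε) ((4 - κ ^ 2 : ℝ) : ℂ) ((SbP κ : ℝ) : ℂ) (W : ℂ)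
    ((Real.cos (m * (Real.pi / M)) : ℝ) : ℂ)
    ((Real.sin (m * (Real.pi / M)) / Real.sin (Real.pi / M) : ℝ) : ℂ)
    ((Real.cos ((m - 1 : ℕ) * (Real.pi / M)) : ℝ) : ℂ)
    ((Real.sin ((m - 1 : ℕ) * (Real.pi / M)) / Real.sin (Real.pi / M) : ℝ) : ℂ)
    (G c d * ξ) (G c e * ξ) _ _ (y e) (y d) GG H2 hlC hccC hι1 hι2 hκC
    (by unfold cP; push_cast; ring) (by push_cast; ring) hk0
    (by rw [hSbP]; push_cast; ring) hxe hfu rfl rfl rfl rfl
    (by rw [← Complex.ofReal_mul, hWC]; push_cast; ring)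
    (by rw [← Complex.ofReal_mul, hWS]; push_cast; ring)
    (by rw [hWd]; push_cast; ring)
    (by rw [hC1]; push_cast; ring)
    (by rw [hS1]; push_cast; ring)
    hye hyd
  -- real components
  have hgC : (κ : ℂ) * h / (4 * ((cP κ h l : ℝ) : ℂ)) = ((gP κ h l : ℝ) : ℂ) := by
    rw [hgP]
    push_cast
    ring
  have hbC : ((κ : ℂ) * h / 2 - l) / ((cP κ h l : ℝ) : ℂ) = ((b0P κ h l : ℝ) : ℂ) := by
    rw [hbP]
    push_cast
    ring
  have eD := blke_D ε s κ h l R z ι hι2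
  have eN := blke_N ε s κ h l R z ι hι2
  rw [← hu', ← hyy] at eD eN
  rw [hgC, hbC] at e1 e2
  rw [← eD] at e1
  rw [← eN] at e2
  have hn : stepN p q r s c d e ε m z = vn s ε true z κ h l R := by
    unfold stepN
    rw [hev]
  rw [hn] at hst
  set Dr := vDr s ε true z κ h l R with hDr
  set Di := vDi s ε true z κ h l R with hDi
  set Nr := vNr s ε z κ h l R with hNr
  set Ni := vNi s ε z κ h l R with hNi
  have hvn : vn s ε true z κ h l R = Dr * Dr + s * (Di * Di) := rfl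
  set n := vn s ε true z κ h l R with hnd
  have hnC : (n : ℂ) ≠ 0 := by exact_mod_cast hst
  have hj : (blkeσ ε * ι) ^ 2 = -(s : ℂ) := by
    rw [mul_pow, hι2, sq, blke_σσ, one_mul]
  obtain ⟨q1, q2⟩ := blke_quot (Dr : ℂ) Di Nr Ni s n (blkeσ ε * ι) hj
    (by rw [hvn]; push_cast; ring) hnC
  set F := blkeF (G c e) ξ ι ((cP κ h l : ℝ) : ℂ) l with hFd
  have hFm : F * (l * (1 - ι)) = G c e * ξ * ((cP κ h l : ℝ) : ℂ) := by
    rw [hFd]
    unfold blkeF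
    rw [div_mul_cancel₀]
    exact mul_ne_zero hlC hι1
  have hGce : G c e ≠ 0 := by
    intro h0
    rw [h0, zero_mul] at H3
    exact pow_ne_zero 2 hlC H3.symm
  have hF0 : F ≠ 0 := by
    intro h0
    rw [h0, zero_mul] at hFm
    exact mul_ne_zero (mul_ne_zero hGce hξ) hccC hFm.symm
  have hWC0 : (W : ℂ) ≠ 0 := by exact_mod_cast hW.ne'
  have hD0 : (Dr : ℂ) + blkeσ ε * ι * Di ≠ 0 := by
    intro h0
    rw [h0, zero_mul] at q2
    exact zero_ne_one q2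
  have hye0 : y e ≠ 0 := by
    intro h0
    rw [h0, mul_zero] at e1
    exact mul_ne_zero hF0 hD0 e1.symm
  have hWyf : 4 * (W : ℂ) = (κ : ℂ) ^ 2 * ((R : ℂ) ^ 2 + ((SbP κ : ℝ) : ℂ)) := by
    rw [hWd, hSbP]
    push_cast
    field_simp
    ring
  have ked : kk p q r e d = κ := blke_kk p q r e d
  have kdc : kk p q r d c = h := blke_kk p q r d c
  have kec : kk p q r e c = l := blke_kk p q r e c
  have hwr : ((vwr s ε true z κ h l R : ℝ) : ℂ) = ((Nr : ℂ) * Dr + s * (Ni * Di)) / n := by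
    unfold vwr
    push_cast
    rfl
  have hwi : ((vwi s ε true z κ h l R : ℝ) : ℂ) = ((Ni : ℂ) * Dr - Nr * Di) / n := by
    unfold vwi
    push_cast
    rfl
  have hyf : yfP true κ h l R = R * R + SbP κ := by
    unfold yfP crP
    simp
  refine ⟨y e, hye0, ?_, ?_⟩
  · rw [hev]
    show Ch p q r τ G (e, d, c) y (y e) (stepV p q r s c d e ε m z)
    have hsv : stepV p q r s c d e ε m z = vstep s ε true z κ h l R := by
      unfold stepV
      rw [hev]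
    rw [hsv]
    refine ⟨rfl, ?_, ?_⟩
    · show -(2 * y d - G c d * y c - G e d * y e) * G d e =
        ((kk p q r e d ^ 2 : ℝ) : ℂ) * y e * (((vwr s ε true z κ h l R : ℝ) : ℂ) +
          iot τ e d * ((rsg (!(cjP ε true)) (vwi s ε true z κ h l R) : ℝ) : ℂ))
      rw [hyc, ked, hιe, blke_b, hwr, hwi]
      apply mul_left_cancel₀ hWC0
      push_cast
      linear_combination e2 - (κ : ℂ) ^ 2 * (((Nr : ℂ) * Dr + s * (Ni * Di)) / n +
        (blkeσ ε * ι) * (((Ni : ℂ) * Dr - Nr * Di) / n)) * e1 - (κ : ℂ) ^ 2 * F * q1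
    · show ((4 * cP (kk p q r d c) (kk p q r e d) (kk p q r e c) : ℝ) : ℂ) * G c e * y c =
        ((kk p q r e c * kk p q r e d ^ 2 : ℝ) : ℂ) * y e * (1 + iot τ e d) *
          (((yfP true κ h l R * Dr / n : ℝ) : ℂ) +
          iot τ e d * ((rsg (!(cjP ε true)) (-(yfP true κ h l R * Di / n)) : ℝ) : ℂ))
      rw [hyc, ked, kdc, kec, hιe, blke_b, hyf]
      have hcp : cP h κ l = cP κ h l := by unfold cP; ring
      rw [hcp]
      apply mul_left_cancel₀ hWC0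
      push_cast
      linear_combination (((cP κ h l : ℝ) : ℂ) * G c e * ξ) * hWyf -
        (κ : ℂ) ^ 2 * ((R : ℂ) ^ 2 + ((SbP κ : ℝ) : ℂ)) * hFm -
        (κ : ℂ) ^ 2 * ((R : ℂ) ^ 2 + ((SbP κ : ℝ) : ℂ)) * F * l * (1 - ι) * q2 -
        l * (κ : ℂ) ^ 2 * (1 - ι) * ((R : ℂ) ^ 2 + ((SbP κ : ℝ) : ℂ)) *
          (((Dr : ℂ) - blkeσ ε * ι * Di) / n) * e1
  · have hsf : stepF p q r s c d e ε m z = fac s ε true z κ h l R := by
      unfold stepF
      rw [hev]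
    rw [hsf]
    unfold fac
    rw [← hnd, hgP]
    have n1 : ‖(Dr : ℂ) + blkeσ ε * ι * Di‖ ^ 2 = n := by
      rw [hιt, blke_normD ε t s Dr Di hts, hvn]
    have n2 : ‖1 - ι‖ ^ 2 = 1 + s := by
      have h1 : (1 : ℂ) - ι = ((1 : ℝ) : ℂ) + ((-t : ℝ) : ℂ) * Complex.I := by
        rw [hιt]
        push_cast
        ring
      rw [Complex.sq_norm, h1, Complex.normSq_add_mul_I, ← hts]
      ring
    have n3 : ‖F‖ ^ 2 * (1 + s) = ‖ξ‖ ^ 2 * cP κ h l ^ 2 := by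
      have h1 := congrArg (fun w => ‖w‖ ^ 2) hFm
      simp only [norm_mul, mul_pow, Complex.norm_real, Real.norm_eq_abs, sq_abs] at h1
      rw [n2, hG.nrm c e hec.symm, ← hl] at h1
      have h2 : l ^ 2 * (‖F‖ ^ 2 * (1 + s)) = l ^ 2 * (‖ξ‖ ^ 2 * cP κ h l ^ 2) := by
        linear_combination h1
      exact mul_left_cancel₀ (pow_ne_zero 2 hl0.ne') h2
    have n4 : W ^ 2 * ‖y e‖ ^ 2 = ‖F‖ ^ 2 * n := by
      have h1 := congrArg (fun w => ‖w‖ ^ 2) e1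
      simp only [norm_mul, mul_pow, Complex.norm_real, Real.norm_eq_abs, sq_abs] at h1
      rw [h1, n1]
    have hWr : 4 * W = κ ^ 2 * (R ^ 2 + SbP κ) := by
      have := hWyf
      exact_mod_cast this
    have hSbpos : 0 < R ^ 2 + SbP κ := by
      have : 0 < κ ^ 2 * (R ^ 2 + SbP κ) := by rw [← hWr]; positivity
      exact (mul_pos_iff_of_pos_left (by positivity)).1 this
    have hs1 : 0 < 1 + s := by linarith
    have hQ : R * R + SbP κ = 4 * W / κ ^ 2 := by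
      rw [hWr]
      field_simp
    rw [hQ]
    have h3 : κ * κ * (κ * h / (4 * cP κ h l) * (κ * h / (4 * cP κ h l))) * (1 + s) *
        (4 * W / κ ^ 2 * (4 * W / κ ^ 2)) = h * h * ((1 + s) * W ^ 2) / cP κ h l ^ 2 := by
      field_simp
    rw [h3]
    have h4 : (1 + s) * (W ^ 2 * ‖y e‖ ^ 2) = ‖ξ‖ ^ 2 * cP κ h l ^ 2 * n := by
      rw [n4, ← n3]
      ring
    rw [div_mul_eq_mul_div, eq_div_iff (by positivity)]
    field_simp
    linear_combination h4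

end Pool.Agent.Helper6.MONO
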